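import Mathlib

/-!
# Definitions for the positive-fraction version of Kirchberger's theorem
-/

namespace Pool.Agent.V5helper10.Kirchberger

/-- No `d + 1` points of the finite set `S` in `ℝ^d` lie on a common affine hyperplane
`{x | ⟨u, x⟩ = c}`, `u ≠ 0`. -/
def GeneralPosition {d : ℕ} (S : Finset (EuclideanSpace ℝ (Fin d))) : Prop :=
  ∀ T ⊆ S, T.card = d + 1 →
    ¬ ∃ (u : EuclideanSpace ℝ (Fin d)) (c : ℝ), u ≠ 0 ∧ ∀ x ∈ T, inner ℝ u x = c

/-- Some affine hyperplane `{x | ⟨u, x⟩ = c}`, `u ≠ 0`, has `P` in one of its open sides and `Q` in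
the other one. -/
def Separated {d : ℕ} (P Q : Finset (EuclideanSpace ℝ (Fin d))) : Prop :=
  ∃ (u : EuclideanSpace ℝ (Fin d)) (c : ℝ), u ≠ 0 ∧
    (∀ x ∈ P, c < inner ℝ u x) ∧ (∀ x ∈ Q, inner ℝ u x < c)

open scoped Classical in
/-- The good `(d+2)`-subsets `S` of `A ∪ B`: those for which `A ∩ S` and `B ∩ S` are separated by a
hyperplane. -/
noncomputable def goodSubsets {d : ℕ} (A B : Finset (EuclideanSpace ℝ (Fin d))) :
    Finset (Finset (EuclideanSpace ℝ (Fin d))) :=
  ((A ∪ B).powersetCard (d + 2)).filter fun S => Separated (A ∩ S) (B ∩ S)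

open scoped Classical in
/-- `g` has the property asked for in dimension `d`: for all disjoint `N`-point sets `A, B` in
`ℝ^d` (with `2N ≥ d + 2`, so that there are `(d+2)`-subsets) with `A ∪ B` in general position, if
at least `(1 - ε) binom(2N, d+2)` of the `(d+2)`-subsets are good, then there are `A' ⊆ A` and
`B' ⊆ B` of size at least `(1 - g ε) N` which are separated by a hyperplane. -/
def PositiveFraction (d : ℕ) (g : ℝ → ℝ) : Prop :=
  ∀ ε : ℝ, 0 < ε → ∀ N : ℕ, d + 2 ≤ 2 * N → ∀ A B : Finset (EuclideanSpace ℝ (Fin d)),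
    A.card = N → B.card = N → Disjoint A B → GeneralPosition (A ∪ B) →
    (1 - ε) * ((2 * N).choose (d + 2) : ℝ) ≤ ((goodSubsets A B).card : ℝ) →
    ∃ A' ⊆ A, ∃ B' ⊆ B, Separated A' B' ∧
      (1 - g ε) * N ≤ (A'.card : ℝ) ∧ (1 - g ε) * N ≤ (B'.card : ℝ)

end Pool.Agent.V5helper10.Kirchberger
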