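import Mathlib

/-!
# Sampling and compression for homogeneous linear classification

Core of the positive-fraction Kirchberger theorem.
-/

open Module Finset

namespace Pool.Agent.V5helper10.KirchCore

variable {V : Type*} [NormedAddCommGroup V] [InnerProductSpace ℝ V]

/-- `w` is the point of smallest norm of the convex set `K` (variational form). -/
def IsMin (K : Set V) (w : V) : Prop := w ∈ K ∧ ∀ x ∈ K, inner ℝ w w ≤ inner ℝ w x

lemma IsMin.unique {K : Set V} {w w' : V} (h : IsMin K w) (h' : IsMin K w') : w = w' := by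
  have h1 := h.2 w' h'.1
  have h2 := h'.2 w h.1
  have h3 : inner ℝ (w - w') (w - w') ≤ 0 := by
    rw [inner_sub_left, inner_sub_right, inner_sub_right, real_inner_comm w' w] at *
    linarith [real_inner_comm w w']
  have h4 : w - w' = 0 := by
    have := real_inner_self_nonneg (x := w - w')
    exact inner_self_eq_zero.mp (le_antisymm h3 this)
  exact sub_eq_zero.mp h4

lemma exists_isMin [FiniteDimensional ℝ V] {S : Set V} (hS : S.Finite) (hne : S.Nonempty) :
    ∃ w, IsMin (convexHull ℝ S) w := by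
  have hc : IsCompact (convexHull ℝ S) := hS.isCompact_convexHull ℝ
  obtain ⟨w, hw, h⟩ := exists_norm_eq_iInf_of_complete_convex (K := convexHull ℝ S)
    (hne.mono (subset_convexHull ℝ S)) hc.isComplete (convex_convexHull ℝ S) 0
  refine ⟨w, hw, fun x hx => ?_⟩
  have h2 := (norm_eq_iInf_iff_real_inner_le_zero (convex_convexHull ℝ S) hw).1 h x hx
  rw [zero_sub, inner_neg_left, inner_sub_right] at h2
  linarith

/-- The dichotomy: among the samples `s` there are `q` which already contain the origin in their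
convex hull, or whose point of smallest norm classifies the whole sample correctly. -/
lemma dichotomy [FiniteDimensional ℝ V] {ι : Type*} (v : ι → V) {q m : ℕ}
    (hq : finrank ℝ V + 1 ≤ q) (hm : q ≤ m) (s : Fin m → ι) :
    ∃ e : Fin q ↪ Fin m, (0 : V) ∈ convexHull ℝ (Set.range (v ∘ s ∘ e)) ∨
      (∀ w, IsMin (convexHull ℝ (Set.range (v ∘ s ∘ e))) w → ∀ j, 0 < inner ℝ w (v (s j))) := by
  classical
  have hm0 : 0 < m := by omega
  have hfin : (Set.range (v ∘ s)).Finite := Set.finite_range _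
  have hne : (Set.range (v ∘ s)).Nonempty := ⟨_, ⟨⟨0, hm0⟩, rfl⟩⟩
  obtain ⟨w, hwK, hwmin⟩ := exists_isMin hfin hne
  have hw1 := hwK
  rw [convexHull_eq_union] at hw1
  simp only [Set.mem_iUnion] at hw1
  obtain ⟨t, hts, hai, hwt⟩ := hw1
  have hcard : t.card ≤ q := by
    have h1 := hai.card_le_finrank_succ
    have h2 : finrank ℝ (vectorSpan ℝ (Set.range ((↑) : t → V))) ≤ finrank ℝ V :=
      Submodule.finrank_le _
    simp only [Fintype.card_coe] at h1
    omega
  have hch : ∀ x : t, ∃ j : Fin m, v (s j) = x := fun x => by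
    obtain ⟨j, hj⟩ := hts x.2
    exact ⟨j, hj⟩
  choose f hf using hch
  set J0 : Finset (Fin m) := Finset.univ.image f with hJ0
  have hJ0c : J0.card ≤ q := le_trans Finset.card_image_le (by simpa using hcard)
  obtain ⟨J, hJ0J, hJc⟩ := Finset.exists_superset_card_eq hJ0c (by simpa using hm)
  refine ⟨(J.orderEmbOfFin hJc).toEmbedding, ?_⟩
  set e := (J.orderEmbOfFin hJc).toEmbedding with he
  have hrange : Set.range e = (J : Set (Fin m)) := Finset.range_orderEmbOfFin J hJc
  have htsub : (t : Set V) ⊆ Set.range (v ∘ s ∘ e) := by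
    intro x hx
    have h1 : f ⟨x, hx⟩ ∈ (J : Set (Fin m)) :=
      hJ0J (Finset.mem_image_of_mem f (Finset.mem_univ _))
    rw [← hrange] at h1
    obtain ⟨i, hi⟩ := h1
    refine ⟨i, ?_⟩
    simp only [Function.comp_apply, hi]
    exact hf ⟨x, hx⟩
  have hsub2 : Set.range (v ∘ s ∘ e) ⊆ Set.range (v ∘ s) := by
    rintro _ ⟨i, rfl⟩
    exact ⟨e i, rfl⟩
  have hwJ : w ∈ convexHull ℝ (Set.range (v ∘ s ∘ e)) := convexHull_mono htsub hwt
  have hminJ : IsMin (convexHull ℝ (Set.range (v ∘ s ∘ e))) w :=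
    ⟨hwJ, fun x hx => hwmin x (convexHull_mono hsub2 hx)⟩
  by_cases hw0 : w = 0
  · left
    rwa [hw0] at hwJ
  · right
    intro w' hw' j
    rw [hw'.unique hminJ]
    have h1 := hwmin (v (s j)) (subset_convexHull ℝ _ ⟨j, rfl⟩)
    have h2 : 0 < inner ℝ w w := real_inner_self_pos.mpr hw0
    linarith

/-- Fibres of `s ↦ s ∘ e`. -/
lemma fiber_card {ι : Type*} [Fintype ι] [DecidableEq ι] {q m : ℕ} (e : Fin q ↪ Fin m)
    (u : Fin q → ι) (Q : Finset ι) :
    ((Finset.univ : Finset (Fin m → ι)).filter fun s => s ∘ e = u ∧ ∀ j, s j ∈ Q).card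
      ≤ Q.card ^ (m - q) := by
  classical
  set F : Fin m → Finset ι := fun j => if h : ∃ i, e i = j then {u h.choose} else Q with hF
  have hsub : ((Finset.univ : Finset (Fin m → ι)).filter fun s => s ∘ e = u ∧ ∀ j, s j ∈ Q)
      ⊆ Fintype.piFinset F := by
    intro s hs
    simp only [Finset.mem_filter, Finset.mem_univ, true_and] at hs
    rw [Fintype.mem_piFinset]
    intro j
    simp only [hF]
    split_ifs with h
    · have h1 := h.choose_spec
      rw [Finset.mem_singleton, ← hs.1, Function.comp_apply, h1]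
    · exact hs.2 j
  refine (Finset.card_le_card hsub).trans ?_
  rw [Fintype.card_piFinset]
  have h1 : ∀ j, (F j).card = if (∃ i, e i = j) then 1 else Q.card := by
    intro j
    simp only [hF]
    split_ifs <;> simp
  simp only [h1]
  rw [Finset.prod_ite, Finset.prod_const_one, one_mul, Finset.prod_const]
  refine le_of_eq ?_
  congr 1
  have h2 : (Finset.univ.filter fun j : Fin m => ¬ ∃ i, e i = j) =
      Finset.univ \ (Finset.univ.map e) := by
    ext j
    simp
  rw [h2, Finset.card_sdiff_of_subset (Finset.subset_univ _)]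
  simp

/-- The counting inequality. -/
theorem counting [FiniteDimensional ℝ V] {ι : Type*} [Fintype ι] [DecidableEq ι] (v : ι → V)
    {κ : ℝ}
    (hκ : ∀ w : V, ((Finset.univ.filter fun i => 0 < inner ℝ w (v i)).card : ℝ) ≤
      κ * Fintype.card ι)
    {q m : ℕ} (hq : finrank ℝ V + 1 ≤ q) (hm : q ≤ m) [DecidablePred fun u : Fin q → ι =>
      (0 : V) ∈ convexHull ℝ (Set.range (v ∘ u))] :
    (Fintype.card ι : ℝ) ^ m ≤ (m : ℝ) ^ q *
      (((Finset.univ.filter fun u : Fin q → ι =>
          (0 : V) ∈ convexHull ℝ (Set.range (v ∘ u))).card : ℝ) * (Fintype.card ι : ℝ) ^ (m - q) +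
        (Fintype.card ι : ℝ) ^ q * (κ * Fintype.card ι) ^ (m - q)) := by
  classical
  set n := Fintype.card ι with hn
  have hq0 : 0 < q := by omega
  have hW : ∀ u : Fin q → ι, ∃ w, IsMin (convexHull ℝ (Set.range (v ∘ u))) w := fun u =>
    exists_isMin (Set.finite_range _) ⟨_, ⟨⟨0, hq0⟩, rfl⟩⟩
  choose W hW using hW
  set Q : (Fin q → ι) → Finset ι := fun u => Finset.univ.filter fun i => 0 < inner ℝ (W u) (v i)
    with hQ
  set bad : Finset (Fin q → ι) := Finset.univ.filter fun u =>
    (0 : V) ∈ convexHull ℝ (Set.range (v ∘ u)) with hbad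
  -- for every embedding two sets
  set S1 : (Fin q ↪ Fin m) → Finset (Fin m → ι) := fun e =>
    Finset.univ.filter fun s => s ∘ e ∈ bad with hS1
  set S2 : (Fin q ↪ Fin m) → Finset (Fin m → ι) := fun e =>
    Finset.univ.filter fun s => ∀ j, s j ∈ Q (s ∘ e) with hS2
  have hcover : (Finset.univ : Finset (Fin m → ι)) ⊆
      Finset.univ.biUnion fun e => S1 e ∪ S2 e := by
    intro s _
    obtain ⟨e, he⟩ := dichotomy v hq hm s
    rw [Finset.mem_biUnion]
    refine ⟨e, Finset.mem_univ _, ?_⟩
    rw [Finset.mem_union]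
    rcases he with he | he
    · left
      simp only [hS1, hbad, Finset.mem_filter, Finset.mem_univ, true_and]
      exact he
    · right
      simp only [hS2, hQ, Finset.mem_filter, Finset.mem_univ, true_and]
      intro j
      exact he _ (hW (s ∘ e)) j
  have hc1 : ∀ e, ((S1 e).card : ℝ) ≤ (bad.card : ℝ) * (n : ℝ) ^ (m - q) := by
    intro e
    have h1 : S1 e ⊆ bad.biUnion fun u => Finset.univ.filter fun s : Fin m → ι =>
        s ∘ e = u ∧ ∀ j, s j ∈ (Finset.univ : Finset ι) := by
      intro s hs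
      simp only [hS1, Finset.mem_filter, Finset.mem_univ, true_and] at hs
      rw [Finset.mem_biUnion]
      exact ⟨s ∘ e, hs, by simp⟩
    have h2 : (S1 e).card ≤ bad.card * n ^ (m - q) := by
      refine (Finset.card_le_card h1).trans (Finset.card_biUnion_le_card_mul _ _ _ ?_)
      intro u _
      refine (fiber_card e u Finset.univ).trans ?_
      rw [Finset.card_univ]
    exact_mod_cast h2
  have hc2 : ∀ e, ((S2 e).card : ℝ) ≤ (n : ℝ) ^ q * (κ * n) ^ (m - q) := by
    intro e
    have h1 : S2 e ⊆ (Finset.univ : Finset (Fin q → ι)).biUnion fun u =>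
        Finset.univ.filter fun s : Fin m → ι => s ∘ e = u ∧ ∀ j, s j ∈ Q u := by
      intro s hs
      simp only [hS2, Finset.mem_filter, Finset.mem_univ, true_and] at hs
      rw [Finset.mem_biUnion]
      refine ⟨s ∘ e, Finset.mem_univ _, ?_⟩
      simp only [Finset.mem_filter, Finset.mem_univ, true_and]
      exact hs
    have h2 : ((S2 e).card : ℝ) ≤ ∑ u : Fin q → ι, (κ * n) ^ (m - q) := by
      have h3 : (S2 e).card ≤ ∑ u : Fin q → ι, (Q u).card ^ (m - q) :=
        (Finset.card_le_card h1).trans (Finset.card_biUnion_le.trans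
          (Finset.sum_le_sum fun u _ => fiber_card e u (Q u)))
      calc ((S2 e).card : ℝ) ≤ ((∑ u : Fin q → ι, (Q u).card ^ (m - q) : ℕ) : ℝ) := by
            exact_mod_cast h3
        _ = ∑ u : Fin q → ι, ((Q u).card : ℝ) ^ (m - q) := by push_cast; rfl
        _ ≤ ∑ u : Fin q → ι, (κ * n) ^ (m - q) := by
            refine Finset.sum_le_sum fun u _ => ?_
            exact pow_le_pow_left₀ (Nat.cast_nonneg _) (hκ (W u)) _
    refine h2.trans (le_of_eq ?_)
    rw [Finset.sum_const, Finset.card_univ, nsmul_eq_mul]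
    simp [hn]
  have hnonneg : 0 ≤ (bad.card : ℝ) * (n : ℝ) ^ (m - q) + (n : ℝ) ^ q * (κ * n) ^ (m - q) := by
    have h0 : 0 ≤ κ * n := le_trans (Nat.cast_nonneg _) (hκ 0)
    positivity
  calc (n : ℝ) ^ m = (((Finset.univ : Finset (Fin m → ι)).card : ℕ) : ℝ) := by
        rw [Finset.card_univ]; simp [hn]
    _ ≤ (((Finset.univ.biUnion fun e => S1 e ∪ S2 e).card : ℕ) : ℝ) := by
        exact_mod_cast Finset.card_le_card hcover
    _ ≤ ∑ e : Fin q ↪ Fin m, (((S1 e).card : ℝ) + ((S2 e).card : ℝ)) := by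
        have h1 : (Finset.univ.biUnion fun e => S1 e ∪ S2 e).card ≤
            ∑ e : Fin q ↪ Fin m, ((S1 e).card + (S2 e).card) :=
          Finset.card_biUnion_le.trans (Finset.sum_le_sum fun e _ => Finset.card_union_le _ _)
        exact_mod_cast h1
    _ ≤ ∑ e : Fin q ↪ Fin m, ((bad.card : ℝ) * (n : ℝ) ^ (m - q) +
          (n : ℝ) ^ q * (κ * n) ^ (m - q)) :=
        Finset.sum_le_sum fun e _ => add_le_add (hc1 e) (hc2 e)
    _ = (Fintype.card (Fin q ↪ Fin m) : ℝ) * ((bad.card : ℝ) * (n : ℝ) ^ (m - q) +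
          (n : ℝ) ^ q * (κ * n) ^ (m - q)) := by
        rw [Finset.sum_const, Finset.card_univ, nsmul_eq_mul]
    _ ≤ (m : ℝ) ^ q * ((bad.card : ℝ) * (n : ℝ) ^ (m - q) +
          (n : ℝ) ^ q * (κ * n) ^ (m - q)) := by
        refine mul_le_mul_of_nonneg_right ?_ hnonneg
        rw [Fintype.card_embedding_eq, Fintype.card_fin, Fintype.card_fin]
        exact_mod_cast Nat.descFactorial_le_pow m q

end Pool.Agent.V5helper10.KirchCore
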