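import Mathlib
import Pool.Agent.V5helper10.KirchDefs
import Pool.Agent.V5helper10.KirchCore

/-!
# Proof of the positive-fraction version of Kirchberger's theorem

Idea of the proof: a long random sample (with repetitions) of `A ∪ B` either contains `d+2` points
which are not separated or is classified correctly by the `maximum margin` hyperplane of `d+2` of
its points (Caratheodory's theorem). If every hyperplane misclassifies many points then the second
possibility has small probability, so that many `(d+2)`-subsets are not separated.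
-/

open Module Finset Filter Topology

namespace Pool.Agent.V5helper10.Kirchberger

/-! ### The numerical part -/

theorem numeric (q : ℕ) (hq : 1 ≤ q) : ∃ c : ℝ, 0 < c ∧ ∀ β : ℝ, 0 < β → β ≤ 1 → ∃ m : ℕ, q ≤ m ∧
    (m : ℝ) ^ q * (1 - β ^ q / 2) ^ (m - q) ≤ 1 / 2 ∧
    c * β ^ ((q + 1) * q) ≤ 1 / (2 * (m : ℝ) ^ q) := by
  set p := (q + 1) * q with hp
  set K : ℝ := 2 * 4 ^ p * p.factorial * 2 ^ q + 2 * q with hK
  have hfac : (1 : ℝ) ≤ p.factorial := by exact_mod_cast Nat.factorial_pos p
  have hq1 : (1 : ℝ) ≤ q := by exact_mod_cast hq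
  have h4p : (1 : ℝ) ≤ 4 ^ p := one_le_pow₀ (by norm_num)
  have h2q : (1 : ℝ) ≤ 2 ^ q := one_le_pow₀ (by norm_num)
  have hbig : (1 : ℝ) ≤ 4 ^ p * p.factorial * 2 ^ q :=
    one_le_mul_of_one_le_of_one_le (one_le_mul_of_one_le_of_one_le h4p hfac) h2q
  have hK1 : 1 ≤ K := by rw [hK]; nlinarith
  have hK2 : 2 * (q : ℝ) ≤ K := by rw [hK]; nlinarith
  have hK3 : 2 * 4 ^ p * p.factorial * 2 ^ q ≤ K := by rw [hK]; nlinarith
  have hK0 : 0 < K := by linarith
  have hpq : p = q + q * q := by rw [hp]; ring
  refine ⟨1 / (2 * (2 * K) ^ q), by positivity, fun β hβ hβ1 => ?_⟩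
  set y : ℝ := 1 / β with hy
  have hy1 : 1 ≤ y := by rw [hy, le_div_iff₀ hβ]; linarith
  have hy0 : 0 < y := by linarith
  have hyβ : y * β = 1 := by rw [hy]; field_simp
  have hyq : 1 ≤ y ^ (q + 1) := one_le_pow₀ hy1
  set z : ℝ := K * y ^ (q + 1) with hz
  have hzK : K ≤ z := by rw [hz]; nlinarith
  have hz1 : 1 ≤ z := by linarith
  set m : ℕ := ⌈z⌉₊ with hm
  have hmz : z ≤ m := Nat.le_ceil z
  have hmz2 : (m : ℝ) ≤ 2 * z := by
    have := Nat.ceil_lt_add_one (by linarith : 0 ≤ z)
    linarith
  have hqm : q ≤ m := by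
    have : (q : ℝ) ≤ m := by linarith
    exact_mod_cast this
  have hm0 : (0 : ℝ) < m := by linarith
  have hmq : (m : ℝ) ^ q ≤ (2 * K) ^ q * y ^ p := by
    calc (m : ℝ) ^ q ≤ (2 * z) ^ q := pow_le_pow_left₀ hm0.le hmz2 q
      _ = (2 * K) ^ q * y ^ p := by rw [hz, hp, ← mul_assoc, mul_pow, ← pow_mul]
  have hβp : β ^ p * y ^ p = 1 := by rw [← mul_pow, mul_comm, hyβ, one_pow]
  refine ⟨m, hqm, ?_, ?_⟩
  · -- the exponential estimate
    have hβq : β ^ q ≤ 1 := pow_le_one₀ hβ.le hβ1
    have hβq0 : 0 < β ^ q := pow_pos hβ q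
    have h1 : (1 - β ^ q / 2) ^ (m - q) ≤ Real.exp (-(K * y / 4)) := by
      have h2 : 1 - β ^ q / 2 ≤ Real.exp (-(β ^ q / 2)) := by
        have := Real.add_one_le_exp (-(β ^ q / 2))
        linarith
      calc (1 - β ^ q / 2) ^ (m - q) ≤ (Real.exp (-(β ^ q / 2))) ^ (m - q) :=
            pow_le_pow_left₀ (by linarith) h2 _
        _ = Real.exp ((m - q : ℕ) * (-(β ^ q / 2))) := by rw [← Real.exp_nat_mul]
        _ ≤ Real.exp (-(K * y / 4)) := by
            apply Real.exp_le_exp.mpr
            rw [Nat.cast_sub hqm]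
            have h3 : z / 2 ≤ (m : ℝ) - q := by linarith
            have h4 : z * β ^ q = K * y := by
              rw [hz, pow_succ]
              calc K * (y ^ q * y) * β ^ q = K * y * (y * β) ^ q := by rw [mul_pow]; ring
                _ = K * y := by rw [hyβ, one_pow, mul_one]
            have h5 : z / 2 * (β ^ q / 2) ≤ ((m : ℝ) - q) * (β ^ q / 2) :=
              mul_le_mul_of_nonneg_right h3 (by positivity)
            have h6 : z / 2 * (β ^ q / 2) = K * y / 4 := by rw [← h4]; ring
            linarith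
    have h2 : (K * y / 4) ^ p / p.factorial ≤ Real.exp (K * y / 4) :=
      Real.pow_div_factorial_le_exp _ (by positivity) p
    have h3 : (2 * K) ^ q * y ^ p * 2 ≤ (K * y / 4) ^ p / p.factorial := by
      rw [le_div_iff₀ (by positivity)]
      have h4 : (K * y / 4) ^ p = K ^ p * y ^ p / 4 ^ p := by rw [div_pow, mul_pow]
      rw [h4, le_div_iff₀ (by positivity)]
      have h5 : K ^ p = K ^ q * K ^ (q * q) := by rw [hpq, pow_add]
      have h6 : K ≤ K ^ (q * q) := by
        calc K = K ^ 1 := (pow_one K).symm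
          _ ≤ K ^ (q * q) := pow_le_pow_right₀ hK1 (Nat.one_le_iff_ne_zero.mpr (by positivity))
      have h7 : 2 * 4 ^ p * p.factorial * 2 ^ q ≤ K ^ (q * q) := hK3.trans h6
      have h8 : 0 ≤ K ^ q * y ^ p := by positivity
      have h9 := mul_le_mul_of_nonneg_left h7 h8
      calc (2 * K) ^ q * y ^ p * 2 * p.factorial * 4 ^ p
          = K ^ q * y ^ p * (2 * 4 ^ p * p.factorial * 2 ^ q) := by rw [mul_pow]; ring
        _ ≤ K ^ q * y ^ p * K ^ (q * q) := h9
        _ = K ^ p * y ^ p := by rw [h5]; ring
    have h4 : (m : ℝ) ^ q * 2 ≤ Real.exp (K * y / 4) := by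
      calc (m : ℝ) ^ q * 2 ≤ (2 * K) ^ q * y ^ p * 2 := by linarith
        _ ≤ _ := h3.trans h2
    calc (m : ℝ) ^ q * (1 - β ^ q / 2) ^ (m - q)
        ≤ (m : ℝ) ^ q * Real.exp (-(K * y / 4)) := mul_le_mul_of_nonneg_left h1 (by positivity)
      _ ≤ 1 / 2 := by
        rw [Real.exp_neg, ← div_eq_mul_inv, div_le_div_iff₀ (Real.exp_pos _) (by norm_num)]
        linarith
  · rw [div_mul_eq_mul_div, one_mul, div_le_div_iff₀ (by positivity) (by positivity)]
    calc β ^ p * (2 * (m : ℝ) ^ q) ≤ β ^ p * (2 * ((2 * K) ^ q * y ^ p)) := by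
          refine mul_le_mul_of_nonneg_left ?_ (by positivity)
          linarith
      _ = (β ^ p * y ^ p) * (2 * (2 * K) ^ q) := by ring
      _ = 1 * (2 * (2 * K) ^ q) := by rw [hβp]

/-! ### Homogeneous coordinates -/

/-- homogeneous coordinates `(1, x)` -/
noncomputable def lift {d : ℕ} (x : EuclideanSpace ℝ (Fin d)) : EuclideanSpace ℝ (Fin (d + 1)) :=
  WithLp.toLp 2 (fun i => Fin.cases (1 : ℝ) (fun j => x j) i)

/-- the normal vector of the hyperplane given by `w` -/
noncomputable def tail {d : ℕ} (w : EuclideanSpace ℝ (Fin (d + 1))) : EuclideanSpace ℝ (Fin d) :=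
  WithLp.toLp 2 (fun i => w i.succ)

lemma inner_lift {d : ℕ} (w : EuclideanSpace ℝ (Fin (d + 1))) (x : EuclideanSpace ℝ (Fin d)) :
    inner ℝ w (lift x) = w 0 + inner ℝ (tail w) x := by
  simp [PiLp.inner_apply, Fin.sum_univ_succ, lift, tail]

lemma tail_eq_zero {d : ℕ} {w : EuclideanSpace ℝ (Fin (d + 1))} (h : tail w = 0) (h0 : w 0 = 0) :
    w = 0 := by
  ext i
  refine Fin.cases ?_ (fun j => ?_) i
  · simpa using h0
  · have := congrArg (fun z : EuclideanSpace ℝ (Fin d) => z j) h
    simpa [tail] using this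

/-- separation by a possibly degenerate hyperplane is enough -/
lemma separated_of {d : ℕ} (hd : 1 ≤ d) {P Q : Finset (EuclideanSpace ℝ (Fin d))}
    (u : EuclideanSpace ℝ (Fin d)) (c : ℝ) (hP : ∀ x ∈ P, c < inner ℝ u x)
    (hQ : ∀ x ∈ Q, inner ℝ u x < c) : Separated P Q := by
  by_cases hu : u = 0
  · -- one of the sets is empty
    obtain ⟨u', hu'⟩ : ∃ u' : EuclideanSpace ℝ (Fin d), u' ≠ 0 := by
      have : Nonempty (Fin d) := ⟨⟨0, hd⟩⟩
      exact exists_ne 0
    rcases P.eq_empty_or_nonempty with hPe | ⟨x, hx⟩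
    · obtain ⟨C, hC⟩ : ∃ C : ℝ, ∀ x ∈ Q, inner ℝ u' x < C := by
        obtain ⟨C, hC⟩ := (Q.image fun x => inner ℝ u' x).bddAbove
        refine ⟨C + 1, fun x hx => ?_⟩
        have h1 : inner ℝ u' x ∈ ((Q.image fun x => inner ℝ u' x : Finset ℝ) : Set ℝ) := by
          rw [Finset.mem_coe]
          exact Finset.mem_image_of_mem _ hx
        have := hC h1
        linarith
      exact ⟨u', C, hu', by simp [hPe], hC⟩
    · have hc : c < 0 := by simpa [hu] using hP x hx
      have hQe : Q = ∅ := by
        rw [Finset.eq_empty_iff_forall_notMem]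
        intro y hy
        have := hQ y hy
        simp only [hu, inner_zero_left] at this
        linarith
      obtain ⟨C, hC⟩ : ∃ C : ℝ, ∀ x ∈ P, C < inner ℝ u' x := by
        obtain ⟨C, hC⟩ := (P.image fun x => inner ℝ u' x).bddBelow
        refine ⟨C - 1, fun x hx => ?_⟩
        have h1 : inner ℝ u' x ∈ ((P.image fun x => inner ℝ u' x : Finset ℝ) : Set ℝ) := by
          rw [Finset.mem_coe]
          exact Finset.mem_image_of_mem _ hx
        have := hC h1
        linarith
      exact ⟨u', C, hu', hC, by simp [hQe]⟩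
  · exact ⟨u, c, hu, hP, hQ⟩

/-- every linear form on Euclidean space is an inner product -/
lemma exists_inner {n : ℕ} (f : EuclideanSpace ℝ (Fin n) →ₗ[ℝ] ℝ) :
    ∃ w : EuclideanSpace ℝ (Fin n), ∀ z, inner ℝ w z = f z := by
  refine ⟨(InnerProductSpace.toDual ℝ _).symm (LinearMap.toContinuousLinearMap f), fun z => ?_⟩
  rw [InnerProductSpace.toDual_symm_apply]
  rfl

/-- the homogeneous coordinates of `d+1` points not on a hyperplane are linearly independent -/
lemma linearIndependent_lift {d : ℕ} {T : Finset (EuclideanSpace ℝ (Fin d))}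
    (hT : T.card = d + 1)
    (h : ¬ ∃ (u : EuclideanSpace ℝ (Fin d)) (c : ℝ), u ≠ 0 ∧ ∀ x ∈ T, inner ℝ u x = c) :
    LinearIndependent ℝ (fun x : T => lift (x : EuclideanSpace ℝ (Fin d))) := by
  rw [linearIndependent_iff_card_eq_finrank_span]
  have hcard : Fintype.card T = d + 1 := by simpa using hT
  rw [hcard, Set.finrank]
  by_contra hne
  have hfin : finrank ℝ (EuclideanSpace ℝ (Fin (d + 1))) = d + 1 := finrank_euclideanSpace_fin
  have hlt : Submodule.span ℝ (Set.range fun x : T => lift (x : EuclideanSpace ℝ (Fin d))) < ⊤ := by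
    rw [lt_top_iff_ne_top]
    intro htop
    apply hne
    rw [htop, finrank_top, hfin]
  obtain ⟨f, hf0, hf⟩ := Submodule.exists_le_ker_of_lt_top _ hlt
  obtain ⟨w, hw⟩ := exists_inner f
  apply h
  refine ⟨tail w, -w 0, ?_, ?_⟩
  · intro h0
    have hTne : T.Nonempty := by
      rw [← Finset.card_pos]; omega
    obtain ⟨x, hx⟩ := hTne
    have h1 : f (lift x) = 0 := by
      have : lift x ∈ Submodule.span ℝ (Set.range fun x : T => lift (x : EuclideanSpace ℝ (Fin d))) :=
        Submodule.subset_span ⟨⟨x, hx⟩, rfl⟩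
      exact LinearMap.mem_ker.mp (hf this)
    rw [← hw, inner_lift, h0, inner_zero_left, add_zero] at h1
    have hw0 : w = 0 := tail_eq_zero h0 h1
    apply hf0
    ext z
    rw [← hw, hw0]
    simp
  · intro x hx
    have h1 : f (lift x) = 0 := by
      have : lift x ∈ Submodule.span ℝ (Set.range fun x : T => lift (x : EuclideanSpace ℝ (Fin d))) :=
        Submodule.subset_span ⟨⟨x, hx⟩, rfl⟩
      exact LinearMap.mem_ker.mp (hf this)
    rw [← hw, inner_lift] at h1
    linarith

/-- arbitrary labels of `d+1` points not on a hyperplane are realised by a linear form -/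
lemma exists_label {d : ℕ} {T : Finset (EuclideanSpace ℝ (Fin d))} (hT : T.card = d + 1)
    (h : ¬ ∃ (u : EuclideanSpace ℝ (Fin d)) (c : ℝ), u ≠ 0 ∧ ∀ x ∈ T, inner ℝ u x = c)
    (σ : EuclideanSpace ℝ (Fin d) → ℝ) :
    ∃ w : EuclideanSpace ℝ (Fin (d + 1)), ∀ x ∈ T, inner ℝ w (lift x) = σ x := by
  have hLI := linearIndependent_lift hT h
  have : Nonempty T := by
    have : T.Nonempty := by rw [← Finset.card_pos]; omega
    exact this.to_subtype
  have hc : Fintype.card T = finrank ℝ (EuclideanSpace ℝ (Fin (d + 1))) := by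
    rw [finrank_euclideanSpace_fin]; simpa using hT
  set b := basisOfLinearIndependentOfCardEqFinrank hLI hc with hb
  obtain ⟨w, hw⟩ := exists_inner (b.constr ℝ (fun x : T => σ x))
  refine ⟨w, fun x hx => ?_⟩
  rw [hw]
  have h1 : b ⟨x, hx⟩ = lift x := by simp [hb]
  rw [← h1, Basis.constr_basis]

/-- The heart of the matter: if no separated pair has size at least `(1 - δ) N` then many
`(d+2)`-subsets are not good. -/
theorem main {d : ℕ} (hd : 1 ≤ d) {N : ℕ} (hN : d + 2 ≤ 2 * N)
    {A B : Finset (EuclideanSpace ℝ (Fin d))} (hA : A.card = N) (hB : B.card = N)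
    (hAB : Disjoint A B) (hgp : GeneralPosition (A ∪ B)) {δ : ℝ}
    (hno : ¬ ∃ A' ⊆ A, ∃ B' ⊆ B, Separated A' B' ∧
      (1 - δ) * N ≤ (A'.card : ℝ) ∧ (1 - δ) * N ≤ (B'.card : ℝ))
    {m : ℕ} (hm : d + 2 ≤ m) (hm2 : (m : ℝ) ^ (d + 2) * (1 - δ / 2) ^ (m - (d + 2)) ≤ 1 / 2) :
    ((2 * N).choose (d + 2) : ℝ) / (2 * (m : ℝ) ^ (d + 2)) ≤
      ((2 * N).choose (d + 2) : ℝ) - (goodSubsets A B).card := by
  classical
  set X := A ∪ B with hX
  have hXc : X.card = 2 * N := by
    rw [hX, Finset.card_union_of_disjoint hAB, hA, hB]; ring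
  set v : X → EuclideanSpace ℝ (Fin (d + 1)) := fun x =>
    if (x : EuclideanSpace ℝ (Fin d)) ∈ A then lift (x : EuclideanSpace ℝ (Fin d))
    else - lift (x : EuclideanSpace ℝ (Fin d)) with hv
  have hcardX : Fintype.card X = 2 * N := by simpa using hXc
  have hN0 : 0 < N := by omega
  -- every linear form classifies at most `(1 - δ/2) 2N` points correctly
  have hκ : ∀ w : EuclideanSpace ℝ (Fin (d + 1)),
      ((Finset.univ.filter fun i : X => 0 < inner ℝ w (v i)).card : ℝ) ≤
        (1 - δ / 2) * Fintype.card X := by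
    intro w
    set A' := A.filter fun x => 0 < inner ℝ w (lift x) with hA'
    set B' := B.filter fun x => inner ℝ w (lift x) < 0 with hB'
    have hsep : Separated A' B' := by
      refine separated_of hd (tail w) (-w 0) ?_ ?_
      · intro x hx
        have := (Finset.mem_filter.mp hx).2
        rw [inner_lift] at this
        linarith
      · intro x hx
        have := (Finset.mem_filter.mp hx).2
        rw [inner_lift] at this
        linarith
    have hle : (Finset.univ.filter fun i : X => 0 < inner ℝ w (v i)).card ≤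
        A'.card + B'.card := by
      have h1 : ((Finset.univ.filter fun i : X => 0 < inner ℝ w (v i)).map
          (Function.Embedding.subtype _)) ⊆ A' ∪ B' := by
        intro x hx
        rw [Finset.mem_map] at hx
        obtain ⟨⟨y, hy⟩, hy2, rfl⟩ := hx
        rw [Finset.mem_filter] at hy2
        have hy3 := hy2.2
        simp only [hv] at hy3
        rw [Finset.mem_union]
        by_cases hyA : y ∈ A
        · left
          rw [if_pos hyA] at hy3
          exact Finset.mem_filter.mpr ⟨hyA, hy3⟩
        · right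
          rw [if_neg hyA, inner_neg_right] at hy3
          have hyB : y ∈ B := by
            rcases Finset.mem_union.mp hy with h | h
            · exact absurd h hyA
            · exact h
          exact Finset.mem_filter.mpr ⟨hyB, by simpa using hy3⟩
      calc _ = ((Finset.univ.filter fun i : X => 0 < inner ℝ w (v i)).map
          (Function.Embedding.subtype _)).card := (Finset.card_map _).symm
        _ ≤ (A' ∪ B').card := Finset.card_le_card h1
        _ ≤ _ := Finset.card_union_le _ _
    have hA'A : A' ⊆ A := Finset.filter_subset _ _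
    have hB'B : B' ⊆ B := Finset.filter_subset _ _
    have hA'N : (A'.card : ℝ) ≤ N := by
      have := Finset.card_le_card hA'A
      rw [hA] at this
      exact_mod_cast this
    have hB'N : (B'.card : ℝ) ≤ N := by
      have := Finset.card_le_card hB'B
      rw [hB] at this
      exact_mod_cast this
    have hle' : ((Finset.univ.filter fun i : X => 0 < inner ℝ w (v i)).card : ℝ) ≤
        A'.card + B'.card := by exact_mod_cast hle
    rw [hcardX]
    push_cast
    by_cases h1 : (1 - δ) * N ≤ (A'.card : ℝ)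
    · by_cases h2 : (1 - δ) * N ≤ (B'.card : ℝ)
      · exact absurd ⟨A', hA'A, B', hB'B, hsep, h1, h2⟩ hno
      · push Not at h2
        linarith
    · push Not at h1
      linarith
  have hq : finrank ℝ (EuclideanSpace ℝ (Fin (d + 1))) + 1 ≤ d + 2 := by
    rw [finrank_euclideanSpace_fin]
  have hcount := KirchCore.counting v hκ hq hm
  set bad : Finset (Fin (d + 2) → X) := Finset.univ.filter fun u : Fin (d + 2) → X =>
      (0 : EuclideanSpace ℝ (Fin (d + 1))) ∈ convexHull ℝ (Set.range (v ∘ u)) with hbad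
  rw [hcardX] at hcount
  -- a linear form which is positive on the tuple excludes badness
  have hpos : ∀ u ∈ bad, ∀ w : EuclideanSpace ℝ (Fin (d + 1)),
      ¬ ∀ i, 0 < inner ℝ w (v (u i)) := by
    intro u hu w hw
    have hu2 := (Finset.mem_filter.mp hu).2
    have hconv : Convex ℝ {z : EuclideanSpace ℝ (Fin (d + 1)) | 0 < inner ℝ w z} :=
      convex_halfSpace_gt (innerₛₗ ℝ w).isLinear 0
    have hsub : convexHull ℝ (Set.range (v ∘ u)) ⊆
        {z : EuclideanSpace ℝ (Fin (d + 1)) | 0 < inner ℝ w z} := by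
      refine convexHull_min ?_ hconv
      rintro _ ⟨i, rfl⟩
      exact hw i
    have h0 := hsub hu2
    simp at h0
  -- bad tuples are injective
  have hinj : ∀ u ∈ bad, Function.Injective u := by
    intro u hu
    by_contra hni
    set D : Finset (EuclideanSpace ℝ (Fin d)) :=
      Finset.univ.image fun i => ((u i : X) : EuclideanSpace ℝ (Fin d)) with hD
    have hDc : D.card ≤ d + 1 := by
      have h1 : D.card ≠ d + 2 := by
        intro h2
        apply hni
        have h3 : (Finset.univ : Finset (Fin (d + 2))).card =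
            (Finset.univ.image fun i => ((u i : X) : EuclideanSpace ℝ (Fin d))).card := by
          rw [← hD, h2]; simp
        have h4 := Finset.card_image_iff.mp h3.symm
        intro i j hij
        exact h4 (by simp) (by simp) (by simp [hij])
      have h2 : D.card ≤ d + 2 := Finset.card_image_le.trans (by simp)
      omega
    have hDX : D ⊆ X := by
      intro x hx
      obtain ⟨i, _, rfl⟩ := Finset.mem_image.mp hx
      exact (u i).2
    obtain ⟨T, hDT, hTX, hTc⟩ := Finset.exists_subsuperset_card_eq hDX hDc (by omega)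
    obtain ⟨w, hw⟩ := exists_label hTc (hgp T hTX hTc) (fun x => if x ∈ A then 1 else -1)
    refine hpos u hu w fun i => ?_
    have hiT : ((u i : X) : EuclideanSpace ℝ (Fin d)) ∈ T :=
      hDT (Finset.mem_image_of_mem _ (Finset.mem_univ i))
    have h1 := hw _ hiT
    simp only [hv]
    split_ifs with h
    · rw [h1, if_pos h]; norm_num
    · rw [inner_neg_right, h1, if_neg h]; norm_num
  -- the image of a bad tuple is not good
  set notgood : Finset (Finset (EuclideanSpace ℝ (Fin d))) :=
    (X.powersetCard (d + 2)).filter fun S => ¬ Separated (A ∩ S) (B ∩ S) with hnotgood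
  have himage : ∀ u ∈ bad,
      (Finset.univ.image fun i => ((u i : X) : EuclideanSpace ℝ (Fin d))) ∈ notgood := by
    intro u hu
    set S := Finset.univ.image fun i => ((u i : X) : EuclideanSpace ℝ (Fin d)) with hS
    have hSinj : Function.Injective fun i => ((u i : X) : EuclideanSpace ℝ (Fin d)) :=
      Subtype.val_injective.comp (hinj u hu)
    rw [hnotgood, Finset.mem_filter, Finset.mem_powersetCard]
    refine ⟨⟨?_, ?_⟩, ?_⟩
    · intro x hx
      obtain ⟨i, _, rfl⟩ := Finset.mem_image.mp hx
      exact (u i).2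
    · rw [hS, Finset.card_image_of_injective _ hSinj]; simp
    · rintro ⟨n, c, _, hP, hQ⟩
      -- the linear form
      set w : EuclideanSpace ℝ (Fin (d + 1)) :=
        WithLp.toLp 2 (fun i => Fin.cases (-c) (fun j => n j) i) with hw
      have hw0 : w 0 = -c := by simp [hw]
      have hwt : tail w = n := by
        ext j
        simp [hw, tail]
      refine hpos u hu w fun i => ?_
      have hiS : ((u i : X) : EuclideanSpace ℝ (Fin d)) ∈ S :=
        Finset.mem_image_of_mem _ (Finset.mem_univ i)
      simp only [hv]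
      split_ifs with h
      · rw [inner_lift, hw0, hwt]
        have := hP _ (Finset.mem_inter.mpr ⟨h, hiS⟩)
        linarith
      · rw [inner_neg_right, inner_lift, hw0, hwt]
        have hyB : ((u i : X) : EuclideanSpace ℝ (Fin d)) ∈ B := by
          rcases Finset.mem_union.mp (u i).2 with h' | h'
          · exact absurd h' h
          · exact h'
        have := hQ _ (Finset.mem_inter.mpr ⟨hyB, hiS⟩)
        linarith
  -- every set is the image of at most `(d+2)!` bad tuples
  have hbadcard : bad.card ≤ notgood.card * (d + 2).factorial := by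
    have h1 : bad ⊆ notgood.biUnion fun S => bad.filter fun u =>
        (Finset.univ.image fun i => ((u i : X) : EuclideanSpace ℝ (Fin d))) = S := by
      intro u hu
      rw [Finset.mem_biUnion]
      exact ⟨_, himage u hu, Finset.mem_filter.mpr ⟨hu, rfl⟩⟩
    refine (Finset.card_le_card h1).trans (Finset.card_biUnion_le_card_mul _ _ _ ?_)
    intro S hS
    have hSc : S.card = d + 2 := (Finset.mem_powersetCard.mp (Finset.mem_filter.mp hS).1).2
    -- an injection into the embeddings of `Fin (d+2)` into `S`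
    have h2 : (bad.filter fun u =>
        (Finset.univ.image fun i => ((u i : X) : EuclideanSpace ℝ (Fin d))) = S).card ≤
        (Finset.univ : Finset (Fin (d + 2) ↪ S)).card := by
      refine Finset.card_le_card_of_injOn
        (fun u => if h : Function.Injective u ∧
            (Finset.univ.image fun i => ((u i : X) : EuclideanSpace ℝ (Fin d))) = S then
          ⟨fun i => ⟨((u i : X) : EuclideanSpace ℝ (Fin d)), by
            rw [← h.2]; exact Finset.mem_image_of_mem _ (Finset.mem_univ i)⟩, by
            intro i j hij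
            have h3 : ((u i : X) : EuclideanSpace ℝ (Fin d)) = u j := by
              simpa using hij
            exact h.1 (Subtype.ext h3)⟩
          else Classical.choice (by
            rw [← Fintype.card_pos_iff, Fintype.card_embedding_eq]
            rw [Fintype.card_coe, Fintype.card_fin, hSc, Nat.descFactorial_self]
            exact Nat.factorial_pos _)) (fun _ _ => Finset.mem_univ _) ?_
      intro u hu u' hu' huu'
      rw [Finset.mem_coe, Finset.mem_filter] at hu hu'
      have hc1 : Function.Injective u ∧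
          (Finset.univ.image fun i => ((u i : X) : EuclideanSpace ℝ (Fin d))) = S :=
        ⟨hinj u hu.1, hu.2⟩
      have hc2 : Function.Injective u' ∧
          (Finset.univ.image fun i => ((u' i : X) : EuclideanSpace ℝ (Fin d))) = S :=
        ⟨hinj u' hu'.1, hu'.2⟩
      simp only [dif_pos hc1, dif_pos hc2] at huu'
      funext i
      have h3 := congrArg (fun f : Fin (d + 2) ↪ S => ((f i : S) : EuclideanSpace ℝ (Fin d))) huu'
      exact Subtype.ext h3
    refine h2.trans (le_of_eq ?_)
    rw [Finset.card_univ, Fintype.card_embedding_eq, Fintype.card_coe, Fintype.card_fin, hSc,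
      Nat.descFactorial_self]
  -- good and not good subsets
  have hgood : (goodSubsets A B).card + notgood.card = (2 * N).choose (d + 2) := by
    have h1 := Finset.card_filter_add_card_filter_not (s := X.powersetCard (d + 2))
      (fun S => Separated (A ∩ S) (B ∩ S))
    rw [Finset.card_powersetCard, hXc] at h1
    rw [← h1]
    rfl
  have hgood' : ((2 * N).choose (d + 2) : ℝ) - (goodSubsets A B).card = notgood.card := by
    rw [← hgood]; push_cast; ring
  rw [hgood']
  -- final computation
  clear_value bad notgood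
  set n : ℝ := ((2 * N : ℕ) : ℝ) with hn
  have hn0 : 0 < n := by rw [hn]; exact_mod_cast (by omega : 0 < 2 * N)
  have hmpos : (0 : ℝ) < m := by exact_mod_cast (by omega : 0 < m)
  have hnm : n ^ m = n ^ (d + 2) * n ^ (m - (d + 2)) := by rw [← pow_add]; congr 1; omega
  have h1 : n ^ (d + 2) ≤ (m : ℝ) ^ (d + 2) *
      (bad.card + n ^ (d + 2) * (1 - δ / 2) ^ (m - (d + 2))) := by
    have h2 : n ^ (d + 2) * n ^ (m - (d + 2)) ≤
        ((m : ℝ) ^ (d + 2) * (bad.card + n ^ (d + 2) * (1 - δ / 2) ^ (m - (d + 2)))) *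
          n ^ (m - (d + 2)) := by
      rw [← hnm]
      refine hcount.trans (le_of_eq ?_)
      rw [mul_pow]
      ring
    exact le_of_mul_le_mul_right h2 (pow_pos hn0 _)
  have h2 : n ^ (d + 2) ≤ 2 * (m : ℝ) ^ (d + 2) * bad.card := by
    have h3 : n ^ (d + 2) * ((m : ℝ) ^ (d + 2) * (1 - δ / 2) ^ (m - (d + 2))) ≤
        n ^ (d + 2) * (1 / 2) :=
      mul_le_mul_of_nonneg_left hm2 (pow_nonneg hn0.le _)
    nlinarith
  have h3 : ((2 * N).choose (d + 2) : ℝ) * (d + 2).factorial ≤ n ^ (d + 2) := by
    have h4 : (2 * N).choose (d + 2) * (d + 2).factorial ≤ (2 * N) ^ (d + 2) := by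
      rw [mul_comm, ← Nat.descFactorial_eq_factorial_mul_choose]
      exact Nat.descFactorial_le_pow _ _
    rw [hn]
    exact_mod_cast h4
  have h4 : (bad.card : ℝ) ≤ notgood.card * (d + 2).factorial := by exact_mod_cast hbadcard
  have hfac : (0 : ℝ) < (d + 2).factorial := by exact_mod_cast Nat.factorial_pos (d + 2)
  rw [div_le_iff₀ (by positivity)]
  have h5 : ((2 * N).choose (d + 2) : ℝ) * (d + 2).factorial ≤
      (notgood.card * (2 * (m : ℝ) ^ (d + 2))) * (d + 2).factorial := by
    calc ((2 * N).choose (d + 2) : ℝ) * (d + 2).factorial ≤ n ^ (d + 2) := h3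
      _ ≤ 2 * (m : ℝ) ^ (d + 2) * bad.card := h2
      _ ≤ 2 * (m : ℝ) ^ (d + 2) * (notgood.card * (d + 2).factorial) :=
          mul_le_mul_of_nonneg_left h4 (by positivity)
      _ = _ := by ring
  exact le_of_mul_le_mul_right h5 hfac

/-- **The positive-fraction version of Kirchberger's theorem.** For every dimension `d ≥ 1` there
is a function `g` with `g(ε) → 0` as `ε → 0`, in fact `g(ε) = C ε^(1/(d+3))`, such that the
following holds. Let `A` and `B` be disjoint sets of `N` points in `ℝ^d`, `2N ≥ d+2`, such that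
`A ∪ B` is in general position. If at least a `(1-ε)`-fraction of the `(d+2)`-subsets of `A ∪ B` are
good then there are `A' ⊆ A` and `B' ⊆ B` which are separated by a hyperplane and have at least
`(1 - g(ε)) N` points each. -/
theorem positiveFraction (d : ℕ) (hd : 1 ≤ d) : ∃ g : ℝ → ℝ,
    Tendsto g (𝓝[>] 0) (𝓝 0) ∧
    (∃ C : ℝ, ∀ ε : ℝ, 0 < ε → g ε = C * ε ^ (1 / ((d : ℝ) + 3))) ∧
    PositiveFraction d g := by
  classical
  obtain ⟨c, hc, hnum⟩ := numeric (d + 2) (by omega)
  set r : ℝ := 1 / ((d : ℝ) + 3) with hr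
  have hr0 : 0 < r := by rw [hr]; positivity
  set C : ℝ := (2 / c) ^ r with hC
  have hC0 : 0 < C := by rw [hC]; positivity
  refine ⟨fun ε => C * ε ^ r, ?_, ⟨C, fun ε _ => rfl⟩, ?_⟩
  · have h1 : Tendsto (fun ε : ℝ => C * ε ^ r) (𝓝 0) (𝓝 (C * (0 : ℝ) ^ r)) := by
      refine Tendsto.const_mul C ?_
      exact (Real.continuous_rpow_const hr0.le).tendsto 0
    rw [Real.zero_rpow hr0.ne', mul_zero] at h1
    exact h1.mono_left nhdsWithin_le_nhds
  · intro ε hε N hN A B hA hB hAB hgp hgood
    by_contra hno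
    have hδ0 : 0 < C * ε ^ r := by positivity
    set δ : ℝ := C * ε ^ r with hδ
    have hno' : ¬ ∃ A' ⊆ A, ∃ B' ⊆ B, Separated A' B' ∧
      (1 - δ) * N ≤ (A'.card : ℝ) ∧ (1 - δ) * N ≤ (B'.card : ℝ) := hno
    by_cases hδ1 : 1 ≤ δ
    · apply hno'
      refine ⟨∅, by simp, ∅, by simp, separated_of hd 0 0 (by simp) (by simp), ?_, ?_⟩
      · simp only [Finset.card_empty, Nat.cast_zero]
        have : (0 : ℝ) ≤ N := Nat.cast_nonneg N
        nlinarith
      · simp only [Finset.card_empty, Nat.cast_zero]
        have : (0 : ℝ) ≤ N := Nat.cast_nonneg N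
        nlinarith
    · push Not at hδ1
      set β : ℝ := δ ^ (1 / ((d : ℝ) + 2)) with hβ
      have hβ0 : 0 < β := by positivity
      have hβ1 : β ≤ 1 := Real.rpow_le_one hδ0.le hδ1.le (by positivity)
      have hβq : β ^ (d + 2) = δ := by
        rw [hβ, ← Real.rpow_natCast, ← Real.rpow_mul hδ0.le]
        have : 1 / ((d : ℝ) + 2) * ((d + 2 : ℕ) : ℝ) = 1 := by
          push_cast
          field_simp
        rw [this, Real.rpow_one]
      obtain ⟨m, hm, hm2, hm3⟩ := hnum β hβ0 hβ1
      rw [hβq] at hm2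
      have hmain := main hd hN hA hB hAB hgp hno' hm hm2
      have hch : (0 : ℝ) < ((2 * N).choose (d + 2) : ℝ) := by
        exact_mod_cast Nat.choose_pos hN
      have h1 : ((2 * N).choose (d + 2) : ℝ) / (2 * (m : ℝ) ^ (d + 2)) ≤
          ε * ((2 * N).choose (d + 2) : ℝ) := by linarith
      have h2 : 1 / (2 * (m : ℝ) ^ (d + 2)) ≤ ε := by
        rw [div_eq_mul_one_div, mul_comm] at h1
        exact le_of_mul_le_mul_right h1 hch
      have h3 : β ^ ((d + 2 + 1) * (d + 2)) = δ ^ (d + 3) := by
        rw [mul_comm, pow_mul, hβq]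
      have h4 : δ ^ (d + 3) = 2 / c * ε := by
        rw [hδ, mul_pow, hC, ← Real.rpow_natCast, ← Real.rpow_mul (by positivity),
          ← Real.rpow_natCast, ← Real.rpow_mul hε.le]
        have : r * ((d + 3 : ℕ) : ℝ) = 1 := by
          rw [hr]; push_cast; field_simp
        rw [this, Real.rpow_one, Real.rpow_one]
      have h5 : c * (2 / c * ε) ≤ ε := by
        rw [← h4, ← h3]
        exact hm3.trans h2
      have h6 : c * (2 / c * ε) = 2 * ε := by field_simp
      linarith

end Pool.Agent.V5helper10.Kirchberger
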